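import Pool.Agent.P.MP_f30597_gt.SOF
import Pool.Agent.P.MP_f30597_gt.DP
import Pool.Agent.P.MP_f30597_gt.MEAS3
import Pool.Agent.P.MP_f30597_gt.CORE
import Pool.Agent.P.MP_f30597_gt.FIN2
import Pool.Agent.P.MP_f30597_gt.SI.Main

/-! The L2-Betti numbers and the L2-torsion of a sofic Poincare duality group are bounded by its
stable integral simplicial volume. -/

namespace Pool.Agent.P.MP_f30597_gt.Old.StableIntegral

open Pool.Agent.P.MP_f30597_gt Pool.Agent.P.MP_f30597_gt.SI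

theorem result (n : ℕ) (hn0 : 1 ≤ n) : ∃ C : ℝ, ∀ (G : Type) [Group G], IsSofic G →
    ∀ (ι : Type) [Fintype ι] (deg : ι → ℕ) (c : Matrix ι ι (ZG G)) (w w' : ι → ℤ),
      IsResolution deg c w → (∀ a, deg a ≤ n) → IsResolution (fun a => n - deg a) (cst c) w' →
    ∀ (H : ℕ → Type) [∀ p, NormedAddCommGroup (H p)] [∀ p, InnerProductSpace ℂ (H p)]
      [∀ p, CompleteSpace (H p)] (b : ∀ p, HilbertBasis (G × {a // deg a = p}) ℂ (H p))
      (D : ∀ p q, H p →L[ℂ] H q),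
      (∀ p q, IsRightMul (b p) (b q) (c.submatrix Subtype.val Subtype.val) (D p q)) →
    ∀ V : ℝ, StableVolLe G n V →
      IsDetClass b D ∧ (∀ p, |l2Betti b D p| ≤ C * V) ∧
        ((∀ p, l2Betti b D p = 0) → ∃ ρ, IsL2Torsion b D n ρ ∧ |ρ| ≤ C * V) := by
  classical
  obtain ⟨C, -, h⟩ := main (t_FIN2 t_MOM t_DP t_LIM t_MEAS t_MEAS3 t_CORE) n hn0
  refine ⟨C, fun G _ hG ι _ deg c w w' R hn R' H _ _ _ b D hD V hV => ?_⟩
  obtain ⟨S⟩ := t_SOF G hG
  obtain ⟨μ, B, hμ⟩ := asm_spec hD R.graded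
  obtain ⟨h1, h2⟩ := h G ι S deg c w w' μ B V R hn R' (fun p => (hμ p).2.1) hV
  refine ⟨asm_det hD S, fun p => ?_, fun h0 => ⟨_, ⟨μ, fun p => (hμ p).2.2 (h1 p).1, rfl⟩, ?_⟩⟩
  · rw [(hμ p).1, abs_of_nonneg MeasureTheory.measureReal_nonneg]
    exact (h1 p).2
  · have := h2 fun p => (hμ p).1.symm.trans (h0 p)
    rw [abs_mul]
    exact (mul_le_of_le_one_left (abs_nonneg _) (by norm_num [abs_of_pos])).trans this

end Pool.Agent.P.MP_f30597_gt.Old.StableIntegral
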